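import Mathlib
import Pool.Agent.R493.AC.Chain
/-!
# Near orbits of primes for the maps `x ↦ 4 x + t`

For every `k` and for ALL maps `S x = 4 x + t` with `|t| ≤ N` there are `k` times
`1 ≤ i₁ < ... < i_k ≤ 18 k / 5` and shifts `h` of bounded size such that for many primes `q` in
`[N, C N]` all the numbers `S^i(q) + h i`, `i = i₁, ..., i_k`, are primes. For `k = 1` one of the first
three iterates of `S` maps many primes `q` to primes, up to a bounded shift; the question is about the
first iterate of `4 x + 1`, without shift.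

The theorem on classes of linear forms with the constant `18 / 5`, uniform in constant terms as large as
the variable (`Pool.Agent.Y827.RO.lamRD`), is from the starting files.
-/

namespace Pool.Agent.Results.MP_3df474_nt.NearOrbits

open Finset Filter

theorem result (k : ℕ) : ∃ B C : ℕ, ∀ᶠ N : ℕ in atTop, ∀ t : ℤ, |t| ≤ N →
    ∃ (I : Finset ℕ) (h : ℕ → ℤ), I ⊆ Icc 1 (18 * k / 5) ∧ I.card = k ∧ (∀ i, |h i| ≤ C) ∧
      (N : ℝ) / (Real.log N) ^ B ≤ (((Icc N (C * N)).filter (fun q : ℕ => q.Prime ∧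
        ∀ i ∈ I, ((fun x : ℤ => 4 * x + t)^[i] q + h i).toNat.Prime)).card : ℝ) := by
  obtain ⟨B, C, h⟩ := Pool.Agent.R493.AC.chainsD 4 (by norm_num) k
  refine ⟨B, C, ?_⟩
  filter_upwards [h] with N hN t ht
  obtain ⟨I, h, h1, h2, h3, h4⟩ := hN t ht
  refine ⟨I, h, h1, h2, h3, h4.trans (le_of_eq ?_)⟩
  simp only [Pool.Agent.R493.AC.iterate_eq]
  rfl

end Pool.Agent.Results.MP_3df474_nt.NearOrbits
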