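import Mathlib
import Pool.Agent.R463.LawX

set_option autoImplicit false

/-!
# The Poisson law after primes `q` with `4 q + 1` almost prime
-/

namespace Pool.Agent.Results.MP_3df474_nt.PoissonLaw

open Finset Filter

/-- neither `n` nor `4 n + 1` has a prime factor `p ≤ N ^ (1 / r)` -/
def Almost (N r n : ℕ) : Prop :=
  ∀ p : ℕ, p.Prime → (p : ℝ) ≤ (N : ℝ) ^ (1 / (r : ℝ)) → ¬ p ∣ n ∧ ¬ p ∣ 4 * n + 1

/-- `1` for `p = 2`, otherwise `2` -/
def nu (p : ℕ) : ℕ := if p = 2 then 1 else 2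

/-- the product of `1 - nu(p) / p` over the primes `p ≤ N ^ (1 / r)` -/
noncomputable def V (N r : ℕ) : ℝ :=
  ∏ p ∈ (Icc 1 ⌊(N : ℝ) ^ (1 / (r : ℝ))⌋₊).filter Nat.Prime, (1 - (nu p : ℝ) / p)

/-- the product of `(1 - nu(p) / p) / (1 - 1 / p)` over the primes `p ≤ N ^ (1 / r)` -/
noncomputable def W (N r : ℕ) : ℝ :=
  ∏ p ∈ (Icc 1 ⌊(N : ℝ) ^ (1 / (r : ℝ))⌋₊).filter Nat.Prime, (1 - (nu p : ℝ) / p) / (1 - 1 / (p : ℝ))

open Classical in
/-- the PRIMES `q` in `(A, A + L]`, `q > N ^ (1 / r)`, such that `4 q + 1` has no prime factor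
`≤ N ^ (1 / r)` -/
noncomputable def P (N r A L : ℕ) : Finset ℕ := (Ioc A (A + L)).filter (fun q => q.Prime ∧ Almost N r q)

open Classical in
/-- the number of the `l` in `(n, n + T]` such that neither `l` nor `4 l + 1` has a prime factor
`≤ N ^ (1 / r)` -/
noncomputable def Next (N r T n : ℕ) : ℕ := ((Ioc n (n + T)).filter (fun l => Almost N r l)).card

/-- the leading coefficients -/
def ca : Fin 2 → ℤ := ![1, 4]

/-- the constant terms -/
def cb : Fin 2 → ℤ := ![0, 1]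

lemma ex_iff (p n : ℕ) : (∃ i, (p : ℤ) ∣ ca i * n + cb i) ↔ (p ∣ n ∨ p ∣ 4 * n + 1) := by
  rw [Fin.exists_fin_two]
  have e0 : ca 0 * (n : ℤ) + cb 0 = (n : ℤ) := by simp [ca, cb]
  have e1 : ca 1 * (n : ℤ) + cb 1 = ((4 * n + 1 : ℕ) : ℤ) := by simp [ca, cb]
  rw [e0, e1, Int.natCast_dvd_natCast, Int.natCast_dvd_natCast]

open Pool.Agent.R463.LX in
lemma lx : Lx ca cb where
  pos := fun i => by fin_cases i <;> decide
  inj := fun i j hij => by
    fin_cases i <;> fin_cases j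
    · rfl
    · exact absurd hij (by decide)
    · exact absurd hij (by decide)
    · rfl
  cop := fun i => by
    fin_cases i
    · exact ⟨1, 0, by norm_num [ca, cb]⟩
    · exact ⟨0, 1, by norm_num [ca, cb]⟩
  adm := fun p hp => by
    by_cases h : p ∣ 5
    · refine ⟨2, ?_⟩
      have hp5 : p = 5 := (Nat.prime_dvd_prime_iff_eq hp (by norm_num)).1 h
      subst hp5
      intro i hi
      have := (ex_iff 5 2).1 ⟨i, hi⟩
      revert this
      decide
    · refine ⟨1, fun i hi => ?_⟩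
      rcases (ex_iff p 1).1 ⟨i, hi⟩ with h1 | h1
      · exact hp.one_lt.ne' (Nat.dvd_one.1 h1)
      · exact h h1
  base := ⟨0, by decide, by decide⟩

lemma almost_iff (N r n : ℕ) : Almost N r n ↔ Pool.Agent.R463.LX.Gd ca cb N r n := by
  unfold Almost Pool.Agent.R463.LX.Gd
  constructor
  · intro h p hp hpN i hd
    rcases (ex_iff p n).1 ⟨i, hd⟩ with h1 | h1
    · exact (h p hp hpN).1 h1
    · exact (h p hp hpN).2 h1
  · intro h p hp hpN
    constructor
    · intro hd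
      obtain ⟨i, hi⟩ := (ex_iff p n).2 (Or.inl hd)
      exact h p hp hpN i hi
    · intro hd
      obtain ⟨i, hi⟩ := (ex_iff p n).2 (Or.inr hd)
      exact h p hp hpN i hi

lemma nu_eq (p : ℕ) (hp : p.Prime) : nu p = Pool.Agent.R463.LX.nu ca cb p := by
  classical
  unfold nu Pool.Agent.R463.LX.nu
  have h1 : (range p).filter (fun n : ℕ => ∃ i, (p : ℤ) ∣ ca i * n + cb i) =
      (range p).filter (fun n : ℕ => p ∣ n ∨ p ∣ 4 * n + 1) :=
    filter_congr fun n _ => ex_iff p n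
  rw [h1]
  split_ifs with h2
  · subst h2
    decide
  · obtain ⟨x, hx⟩ := Pool.Agent.Y879.PR.exists_root 4 1 p hp (fun h => by
      have h3 : p ∣ 2 ^ 2 := h
      exact h2 ((Nat.prime_dvd_prime_iff_eq hp Nat.prime_two).1 (hp.dvd_of_dvd_pow h3)))
    have hx' : p ∣ 4 * (x % p) + 1 := by
      have h3 : 4 * (x % p) + 1 ≡ 4 * x + 1 [MOD p] :=
        Nat.ModEq.add_right _ (Nat.ModEq.mul_left _ (Nat.mod_modEq x p))
      exact (Nat.modEq_zero_iff_dvd).1 (h3.trans ((Nat.modEq_zero_iff_dvd).2 hx))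
    have hset : (range p).filter (fun n : ℕ => p ∣ n ∨ p ∣ 4 * n + 1) = {0, x % p} := by
      ext n
      rw [mem_filter, mem_range, mem_insert, mem_singleton]
      constructor
      · rintro ⟨hn, hd | hd⟩
        · left
          exact Nat.eq_zero_of_dvd_of_lt hd hn
        · right
          have h4 : 4 * n + 1 ≡ 4 * (x % p) + 1 [MOD p] :=
            ((Nat.modEq_zero_iff_dvd).2 hd).trans ((Nat.modEq_zero_iff_dvd).2 hx').symm
          have h5 : 4 * n ≡ 4 * (x % p) [MOD p] := Nat.ModEq.add_right_cancel' _ h4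
          have hc : Nat.Coprime p 4 := by
            rw [Nat.Prime.coprime_iff_not_dvd hp]
            intro h
            have h3 : p ∣ 2 ^ 2 := h
            exact h2 ((Nat.prime_dvd_prime_iff_eq hp Nat.prime_two).1 (hp.dvd_of_dvd_pow h3))
          have h6 : n ≡ x % p [MOD p] := Nat.ModEq.cancel_left_of_coprime hc h5
          exact Nat.ModEq.eq_of_lt_of_lt h6 hn (Nat.mod_lt _ hp.pos)
      · rintro (rfl | rfl)
        · exact ⟨hp.pos, Or.inl (dvd_zero p)⟩
        · exact ⟨Nat.mod_lt _ hp.pos, Or.inr hx'⟩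
    rw [hset, card_pair]
    intro h0
    rw [← h0] at hx'
    exact hp.one_lt.ne' (Nat.dvd_one.1 (by simpa using hx'))

lemma V_eq (N r : ℕ) : V N r = Pool.Agent.R463.LX.V ca cb N r := by
  unfold V Pool.Agent.R463.LX.V
  apply prod_congr rfl
  intro p hp
  rw [nu_eq p (mem_filter.1 hp).2]

lemma W_eq (N r : ℕ) : W N r = Pool.Agent.R463.LX.W ca cb N r := by
  unfold W Pool.Agent.R463.LX.W
  apply prod_congr rfl
  intro p hp
  rw [nu_eq p (mem_filter.1 hp).2]

lemma P_eq (N r A L : ℕ) : P N r A L = Pool.Agent.R463.LX.P ca cb N r A L := by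
  classical
  unfold P Pool.Agent.R463.LX.P
  apply filter_congr
  intro n _
  rw [almost_iff]

lemma Next_eq (N r T n : ℕ) : Next N r T n = Pool.Agent.R463.LX.Next ca cb N r T n := by
  classical
  unfold Next Pool.Agent.R463.LX.Next
  congr 1
  apply filter_congr
  intro l _
  exact almost_iff N r l

/-- **The Poisson law after primes `q` with `4 q + 1` almost prime.** For all `θ, δ > 0`, `0 < ε ≤ 1` and
`x₀` there is `r₀` such that for all `r ≥ r₀` and all large `N`: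
(1) if `n ≤ N` is in `Almost`, then `n` and `4 n + 1` have at most `r` prime factors (with multiplicity);
conversely, `n > N ^ (1 / r)` is in `Almost` if `n` and `4 n + 1` are primes;
(2) for all `X ≥ N ^ θ` and all windows `(A, A + L] ⊆ (0, X]` of a length `L ≥ δ X`, the number of the
PRIMES `q` in the window which are in `Almost` is `(1 + η) L W / log X`, `|η| ≤ ε`, `W > 0`;
(3) for `T V ≤ x₀` the number of the `l` in `(q, q + T]` which are in `Almost`, `q` running over the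
primes in (2), has the Poisson law of mean `T V`, up to `ε`. -/
theorem result (θ δ : ℝ) (hθ : 0 < θ) (hδ : 0 < δ) (hδ1 : δ ≤ 1) (x₀ ε : ℝ) (hε : 0 < ε) (hε1 : ε ≤ 1) :
    ∃ r₀ : ℕ, ∀ r : ℕ, r₀ ≤ r → ∃ N₀ : ℕ, ∀ N : ℕ, N₀ ≤ N →
      (∀ n : ℕ, n ≤ N → Almost N r n →
        n.primeFactorsList.length ≤ r ∧ (4 * n + 1).primeFactorsList.length ≤ r) ∧
      (∀ n : ℕ, (N : ℝ) ^ (1 / (r : ℝ)) < n → n.Prime → (4 * n + 1).Prime → Almost N r n) ∧
      0 < V N r ∧ 0 < W N r ∧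
      ∀ X : ℕ, (N : ℝ) ^ θ ≤ X → ∀ A L : ℕ, δ * X ≤ L → A + L ≤ X →
        |((P N r A L).card : ℝ) * Real.log X - L * W N r| ≤ ε * (L * W N r) ∧
        ∀ T : ℕ, T * V N r ≤ x₀ → ∀ B : Finset ℕ,
          |(((P N r A L).filter (fun q => Next N r T q ∈ B)).card : ℝ) -
            (P N r A L).card * ∑ j ∈ B, Real.exp (-(T * V N r)) * (T * V N r) ^ j / j.factorial| ≤
            ε * (P N r A L).card := by
  classical
  obtain ⟨r₀, hr₀, H⟩ := Pool.Agent.R463.LX.law ca cb lx θ δ hθ hδ hδ1 x₀ ε hε hε1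
  refine ⟨r₀, fun r hr => ?_⟩
  obtain ⟨N₀, H⟩ := H r hr
  refine ⟨N₀, fun N hN => ?_⟩
  obtain ⟨H1, H2, H3, H4⟩ := H N hN
  refine ⟨?_, ?_, by rw [V_eq]; exact H2, by rw [W_eq]; exact H3, ?_⟩
  · intro n hn hg
    have h0 := H1 n hn ((almost_iff N r n).1 hg) 0
    have h1 := H1 n hn ((almost_iff N r n).1 hg) 1
    have e0 : ca 0 * (n : ℤ) + cb 0 = (n : ℤ) := by simp [ca, cb]
    have e1 : ca 1 * (n : ℤ) + cb 1 = ((4 * n + 1 : ℕ) : ℤ) := by simp [ca, cb]
    rw [e0, Int.natAbs_natCast] at h0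
    rw [e1, Int.natAbs_natCast] at h1
    exact ⟨h0, h1⟩
  · intro n hn hp1 hp2 p hp hpN
    constructor
    · intro hd
      rw [(Nat.prime_dvd_prime_iff_eq hp hp1).1 hd] at hpN
      linarith
    · intro hd
      rw [(Nat.prime_dvd_prime_iff_eq hp hp2).1 hd] at hpN
      push_cast at hpN
      have : (0 : ℝ) ≤ n := Nat.cast_nonneg _
      linarith
  · intro X hX A L hL hAL
    obtain ⟨G1, G2⟩ := H4 X hX A L hL hAL
    rw [W_eq, V_eq, P_eq]
    refine ⟨G1, ?_⟩
    intro T hT B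
    have h8 := G2 T hT B
    simp only [Next_eq]
    exact h8

end Pool.Agent.Results.MP_3df474_nt.PoissonLaw
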